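import Pool.Agent.Helper74.DI.StM

/-!
# Project DI, module STA: steps outside of the loops
-/

set_option autoImplicit false

namespace Pool.Agent.Helper21.DI

open Pool.Agent.Helper74 Pool.Agent.Helper74.DI

private theorem cfext (a b : Qm × (Hd → ℕ)) (h1 : a.1 = b.1) (h2 : a.2 .J = b.2 .J)
    (h3 : ∀ r c, a.2 (.R r c) = b.2 (.R r c)) (h4 : ∀ c, a.2 (.T c) = b.2 (.T c)) : a = b := by
  refine Prod.ext h1 ?_
  funext h
  cases h with
  | J => exact h2
  | R r c => exact h3 r c
  | T c => exact h4 c

theorem hSTA : StSTA := by
  intro w e o j v t μ hv ht hμ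
  have h1 := hv true
  have h2 := hv false
  refine ⟨?_, ?_, ?_, ?_, ?_, ?_⟩
  · by_cases h : v true = μ
    · rcases hot : o true with _ | _ <;> rcases hof : o false with _ | _ <;>
      · refine cfext _ _ ?_ ?_ ?_ ?_
        · simp [sth, dm, cf, inc, h, hot]
        · simp [sth, dm, cf, mk, inc, h, hot]
        · intro r c
          cases r <;> cases c <;> simp [sth, dm, cf, mk, inc, fl, up, h, hot, hof]
        · intro c
          cases c <;> simp [sth, dm, cf, mk, inc, h, hot]
    · have h' : μ - v true ≠ 0 := by omega
      rcases hot : o true with _ | _ <;> rcases hof : o false with _ | _ <;>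
      · refine cfext _ _ ?_ ?_ ?_ ?_
        · simp [sth, dm, cf, inc, h, h', hot]
        · simp [sth, dm, cf, mk, inc, h, h', hot]
        · intro r c
          cases r <;> cases c <;> simp [sth, dm, cf, mk, inc, fl, up, h, h', hot, hof] <;> omega
        · intro c
          cases c <;> simp [sth, dm, cf, mk, inc, h, h', hot]
  · by_cases h : v true = 0
    · rcases hot : o true with _ | _ <;> rcases hof : o false with _ | _ <;>
      · refine cfext _ _ ?_ ?_ ?_ ?_
        · simp [sth, dm, cf, dec, h, hot]
        · simp [sth, dm, cf, dec, h, hot]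
        · intro r c
          cases r <;> cases c <;> simp [sth, dm, cf, dec, fl, up, h, hot, hof]
        · intro c
          cases c <;> simp [sth, dm, cf, dec, h, hot]
    · rcases hot : o true with _ | _ <;> rcases hof : o false with _ | _ <;>
      · refine cfext _ _ ?_ ?_ ?_ ?_
        · simp [sth, dm, cf, dec, h, hot]
        · simp [sth, dm, cf, mk, dec, h, hot]
        · intro r c
          cases r <;> cases c <;> simp [sth, dm, cf, mk, dec, up, h, hot, hof] <;> omega
        · intro c
          cases c <;> simp [sth, dm, cf, mk, dec, h, hot]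
  · intro ha hb
    refine cfext _ _ ?_ ?_ ?_ ?_
    · simp [sth, dm, cf, ha, hb]
    · simp [sth, dm, cf, ha, hb]
    · intro r c
      simp [sth, dm, cf, ha, hb]
    · intro c
      simp [sth, dm, cf, ha, hb]
  · intro hab
    have hab' : v true = 0 → ¬ v false = 0 := fun ha hb => hab ⟨ha, hb⟩
    by_cases ha : v true = 0
    · have hb := hab' ha
      refine cfext _ _ ?_ ?_ ?_ ?_
      · simp [sth, dm, cf, ha, hb]
      · simp [sth, dm, cf, ha, hb]
      · intro r c
        simp [sth, dm, cf, ha, hb]
      · intro c
        simp [sth, dm, cf, ha, hb]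
    · refine cfext _ _ ?_ ?_ ?_ ?_
      · simp [sth, dm, cf, ha]
      · simp [sth, dm, cf, ha]
      · intro r c
        simp [sth, dm, cf, ha]
      · intro c
        simp [sth, dm, cf, ha]
  · refine cfext _ _ ?_ ?_ ?_ ?_
    · simp [sth, dm, cf]
    · simp [sth, dm, cf]
    · intro r c
      simp [sth, dm, cf]
    · intro c
      simp [sth, dm, cf]
  · refine cfext _ _ ?_ ?_ ?_ ?_
    · simp [sth, dm, cf]
    · simp [sth, dm, cf, mk]
    · intro r c
      simp [sth, dm, cf, mk]
    · intro c
      simp [sth, dm, cf, mk]

end Pool.Agent.Helper21.DI
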